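import Mathlib

/-!
# Katok-Herman theorem (helper25), part 1: the order of the group generated by a circle
homeomorphism without periodic points

`f` is an increasing homeomorphism of the line commuting with `x ↦ x + p`, without periodic
points modulo `p`.  For `u = (i, k)` put `ac f p u x = (f^i) x + k p`.  These maps commute, no
`ac f p u` with `u ≠ 0` has a fixed point, and for given `N` there is a smallest one above the
identity with `|i| ≤ N` (`Mn f p N β`).
-/

set_option autoImplicit false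
open Set Filter Topology MeasureTheory Metric

namespace Pool.Agent.H25.KH

/-- the action of `(i, k)` -/
noncomputable def ac (f : ℝ ≃o ℝ) (p : ℝ) (u : ℤ × ℤ) (x : ℝ) : ℝ := (f ^ u.1) x + u.2 * p

/-- no periodic points, commutes with the translation by `p` -/
structure NP (f : ℝ ≃o ℝ) (p : ℝ) : Prop where
  pos : 0 < p
  per : ∀ x, f (x + p) = f x + p
  np : ∀ q : ℕ, 0 < q → ∀ (k : ℤ) (z : ℝ), (f ^ q) z ≠ z + k * p

variable {f : ℝ ≃o ℝ} {p : ℝ}

theorem NP.per_inv (h : NP f p) (x : ℝ) : (f⁻¹ : ℝ ≃o ℝ) (x + p) = (f⁻¹ : ℝ ≃o ℝ) x + p := by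
  apply f.injective
  rw [h.per]
  have h1 : ∀ y, f ((f⁻¹ : ℝ ≃o ℝ) y) = y := fun y => f.apply_symm_apply y
  rw [h1, h1]

theorem NP.per_zpow1 (h : NP f p) (i : ℤ) (x : ℝ) : (f ^ i) (x + p) = (f ^ i) x + p := by
  induction i using Int.induction_on generalizing x with
  | zero => simp
  | succ i ih =>
    have e : ∀ y, (f ^ ((i : ℤ) + 1)) y = (f ^ (i : ℤ)) (f y) := by
      intro y
      rw [zpow_add, zpow_one]
      rfl
    rw [e, e, h.per, ih]
  | pred i ih =>
    have e : ∀ y, (f ^ (-(i : ℤ) - 1)) y = (f ^ (-(i : ℤ))) ((f⁻¹ : ℝ ≃o ℝ) y) := by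
      intro y
      rw [zpow_sub, zpow_one]
      rfl
    rw [e, e, h.per_inv, ih]

theorem NP.per_zpow (h : NP f p) (i k : ℤ) (x : ℝ) :
    (f ^ i) (x + k * p) = (f ^ i) x + k * p := by
  induction k using Int.induction_on generalizing x with
  | zero => simp
  | succ k ih =>
    have e : x + ((k : ℤ) + 1 : ℤ) * p = (x + (k : ℤ) * p) + p := by
      push_cast
      ring
    rw [e, h.per_zpow1, ih]
    push_cast
    ring
  | pred k ih =>
    have e : x + (-(k : ℤ) : ℤ) * p = (x + (-(k : ℤ) - 1 : ℤ) * p) + p := by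
      push_cast
      ring
    have h1 := h.per_zpow1 i (x + (-(k : ℤ) - 1 : ℤ) * p)
    rw [← e, ih] at h1
    push_cast at h1 ⊢
    linarith

theorem ac_zero (x : ℝ) : ac f p 0 x = x := by
  simp [ac]

theorem NP.ac_ac (h : NP f p) (u v : ℤ × ℤ) (x : ℝ) : ac f p u (ac f p v x) = ac f p (u + v) x := by
  unfold ac
  rw [h.per_zpow]
  have e : (f ^ (u + v).1) x = (f ^ u.1) ((f ^ v.1) x) := by
    rw [Prod.fst_add, zpow_add]
    rfl
  rw [e, Prod.snd_add]
  push_cast
  ring

theorem ac_mono (u : ℤ × ℤ) : StrictMono (ac f p u) := by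
  intro x y hxy
  have := (f ^ u.1).strictMono hxy
  unfold ac
  linarith

theorem ac_cont (u : ℤ × ℤ) : Continuous (ac f p u) :=
  ((f ^ u.1).continuous).add continuous_const

theorem NP.ac_per (h : NP f p) (u : ℤ × ℤ) (x : ℝ) (k : ℤ) :
    ac f p u (x + k * p) = ac f p u x + k * p := by
  unfold ac
  rw [h.per_zpow]
  ring

theorem NP.ac_fix (h : NP f p) {u : ℤ × ℤ} {x : ℝ} (hx : ac f p u x = x) : u = 0 := by
  obtain ⟨i, k⟩ := u
  unfold ac at hx
  simp only at hx
  have hp := h.pos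
  rcases lt_trichotomy i 0 with hi | hi | hi
  · exfalso
    obtain ⟨q, hq⟩ : ∃ q : ℕ, i = -(q : ℤ) := ⟨i.natAbs, by omega⟩
    have hq0 : 0 < q := by omega
    have h1 : (f ^ i) x = x + (-k : ℤ) * p := by
      push_cast
      linarith
    have h2 : (f ^ q) ((f ^ i) x) = x := by
      rw [hq, zpow_neg, zpow_natCast]
      exact (f ^ q).apply_symm_apply x
    rw [h1] at h2
    have h3 := h.per_zpow (q : ℤ) (-k) x
    rw [zpow_natCast] at h3
    rw [h3] at h2
    refine h.np q hq0 k x ?_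
    push_cast at h2
    linarith
  · subst hi
    have h1 : (k : ℝ) * p = 0 := by
      have : (f ^ (0 : ℤ)) x = x := by simp
      rw [this] at hx
      linarith
    have h2 : (k : ℝ) = 0 := by
      rcases mul_eq_zero.1 h1 with h | h
      · exact h
      · exact absurd h hp.ne'
    have h3 : k = 0 := by exact_mod_cast h2
    rw [h3]
    rfl
  · exfalso
    obtain ⟨q, hq⟩ : ∃ q : ℕ, i = (q : ℤ) := ⟨i.natAbs, by omega⟩
    have hq0 : 0 < q := by omega
    rw [hq, zpow_natCast] at hx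
    refine h.np q hq0 (-k) x ?_
    push_cast
    linarith

theorem NP.ac_inj (h : NP f p) {u v : ℤ × ℤ} {x : ℝ} (hx : ac f p u x = ac f p v x) : u = v := by
  have h1 : ac f p (u - v) (ac f p v x) = ac f p v x := by
    rw [h.ac_ac, sub_add_cancel]
    exact hx
  have := h.ac_fix h1
  exact sub_eq_zero.1 this

theorem NP.lt_of_lt (h : NP f p) {u v : ℤ × ℤ} {x : ℝ} (hx : ac f p u x < ac f p v x) (y : ℝ) :
    ac f p u y < ac f p v y := by
  by_contra hcon
  push Not at hcon
  have hc : Continuous (fun t => ac f p v t - ac f p u t) := (ac_cont v).sub (ac_cont u)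
  have h0 : (0 : ℝ) ∈ Icc (ac f p v y - ac f p u y) (ac f p v x - ac f p u x) :=
    ⟨by linarith, by linarith⟩
  obtain ⟨t, ht⟩ := mem_range_of_exists_le_of_exists_ge hc ⟨y, h0.1⟩ ⟨x, h0.2⟩
  have ht' : ac f p v t = ac f p u t := by
    have : ac f p v t - ac f p u t = 0 := ht
    linarith
  have := h.ac_inj ht'
  rw [this] at hx
  exact lt_irrefl _ hx

theorem NP.le_of_le (h : NP f p) {u v : ℤ × ℤ} {x : ℝ} (hx : ac f p u x ≤ ac f p v x) (y : ℝ) :
    ac f p u y ≤ ac f p v y := by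
  rcases hx.lt_or_eq with h1 | h1
  · exact (h.lt_of_lt h1 y).le
  · rw [h.ac_inj h1]

/-- `u` is above the identity -/
def Ps (f : ℝ ≃o ℝ) (p : ℝ) (u : ℤ × ℤ) : Prop := ∀ x, x < ac f p u x

theorem NP.ps (h : NP f p) {u : ℤ × ℤ} {x : ℝ} (hx : x < ac f p u x) : Ps f p u := by
  intro y
  have h1 : ac f p 0 x < ac f p u x := by rwa [ac_zero]
  have := h.lt_of_lt h1 y
  rwa [ac_zero] at this

theorem Ps.ne {u : ℤ × ℤ} (h : Ps f p u) : u ≠ 0 := by
  rintro rfl
  have := h 0
  rw [ac_zero] at this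
  exact lt_irrefl _ this

/-- `v - u` is positive iff `u < v` -/
theorem NP.ps_sub (h : NP f p) {u v : ℤ × ℤ} {x : ℝ} (hx : ac f p u x < ac f p v x) :
    Ps f p (v - u) := by
  refine h.ps (x := ac f p u x) ?_
  rw [h.ac_ac, sub_add_cancel]
  exact hx

/-- the inverse of a positive element is below the identity -/
theorem NP.neg_lt (h : NP f p) {u : ℤ × ℤ} (hu : Ps f p u) (x : ℝ) : ac f p (-u) x < x := by
  have h1 := hu (ac f p (-u) x)
  rw [h.ac_ac, add_neg_cancel, ac_zero] at h1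
  exact h1

/-- `β` is the smallest positive element with `|i| ≤ N` -/
def Mn (f : ℝ ≃o ℝ) (p : ℝ) (N : ℕ) (β : ℤ × ℤ) : Prop :=
  |β.1| ≤ N ∧ Ps f p β ∧ ∀ v : ℤ × ℤ, |v.1| ≤ N → Ps f p v → ∀ x, ac f p β x ≤ ac f p v x

theorem NP.exists_Mn (h : NP f p) (N : ℕ) : ∃ β, Mn f p N β := by
  have hp := h.pos
  set kk : ℤ → ℤ := fun i => ⌊-((f ^ i) 0) / p⌋ + 1 with hkk
  have hk1 : ∀ i, 0 < (f ^ i) 0 + kk i * p := by
    intro i
    have h1 := Int.lt_floor_add_one (-((f ^ i) 0) / p)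
    rw [div_lt_iff₀ hp] at h1
    have : ((kk i : ℤ) : ℝ) = (⌊-((f ^ i) 0) / p⌋ : ℝ) + 1 := by
      rw [hkk]
      push_cast
      rfl
    rw [this]
    linarith
  have hk2 : ∀ i l : ℤ, 0 < (f ^ i) 0 + l * p → kk i ≤ l := by
    intro i l hl
    have h1 : -((f ^ i) 0) / p < l := by
      rw [div_lt_iff₀ hp]
      linarith
    have h2 := Int.floor_lt.2 h1
    rw [hkk]
    simp only
    omega
  obtain ⟨i, hi, hmin⟩ := Finset.exists_min_image (Finset.Icc (-(N : ℤ)) N)
    (fun i => (f ^ i) 0 + kk i * p) ⟨0, by simp⟩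
  rw [Finset.mem_Icc] at hi
  refine ⟨(i, kk i), ?_, ?_, ?_⟩
  · exact abs_le.2 ⟨hi.1, hi.2⟩
  · exact h.ps (x := 0) (hk1 i)
  · intro v hv hps x
    refine h.le_of_le (x := 0) ?_ x
    have h1 : 0 < (f ^ v.1) 0 + v.2 * p := hps 0
    have h2 := hk2 _ _ h1
    have h3 := hmin v.1 (by
      rw [Finset.mem_Icc]
      exact abs_le.1 hv)
    have h4 : (kk v.1 : ℝ) ≤ v.2 := by exact_mod_cast h2
    have h5 : (kk v.1 : ℝ) * p ≤ v.2 * p := mul_le_mul_of_nonneg_right h4 hp.le
    have h6 : (f ^ i) 0 + kk i * p ≤ (f ^ v.1) 0 + kk v.1 * p := h3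
    show (f ^ i) 0 + kk i * p ≤ (f ^ v.1) 0 + v.2 * p
    linarith

theorem NP.Mn_unique (h : NP f p) {N : ℕ} {β β' : ℤ × ℤ} (h1 : Mn f p N β) (h2 : Mn f p N β') :
    β = β' :=
  h.ac_inj (x := 0) (le_antisymm (h1.2.2 β' h2.1 h2.2.1 0) (h2.2.2 β h1.1 h1.2.1 0))

theorem NP.Mn_le_T (h : NP f p) {N : ℕ} {β : ℤ × ℤ} (h1 : Mn f p N β) (x : ℝ) :
    ac f p β x ≤ x + p := by
  have hp := h.pos
  have h2 : Ps f p (0, 1) := by
    intro y
    simp only [ac, zpow_zero, Int.cast_one, one_mul]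
    have : (1 : ℝ ≃o ℝ) y = y := rfl
    rw [this]
    linarith
  have := h1.2.2 (0, 1) (by simp) h2 x
  simp only [ac, zpow_zero, Int.cast_one, one_mul] at this ⊢
  exact this

theorem NP.Mn_antitone (h : NP f p) {N M : ℕ} (hNM : N ≤ M) {β β' : ℤ × ℤ} (h1 : Mn f p N β)
    (h2 : Mn f p M β') (x : ℝ) : ac f p β' x ≤ ac f p β x := by
  refine h2.2.2 β (h1.1.trans ?_) h1.2.1 x
  exact_mod_cast hNM

/-- packing: the intervals `f^m [x, β x]`, `0 ≤ m ≤ N`, are disjoint modulo `p` -/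
theorem NP.packing (h : NP f p) {N : ℕ} {β : ℤ × ℤ} (hβ : Mn f p N β) (x : ℝ) :
    ∑ m ∈ Finset.range (N + 1), ((f ^ m) (ac f p β x) - (f ^ m) x) ≤ p := by
  have hp := h.pos
  set kk : ℕ → ℤ := fun m => ⌈(x - (f ^ m) x) / p⌉ with hkk
  set X : ℕ → ℝ := fun m => (f ^ m) x + kk m * p with hX
  have hXac : ∀ m, X m = ac f p ((m : ℤ), kk m) x := by
    intro m
    simp [hX, ac, zpow_natCast]
  have hX1 : ∀ m, x ≤ X m := by
    intro m
    have h1 := Int.le_ceil ((x - (f ^ m) x) / p)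
    rw [div_le_iff₀ hp] at h1
    show x ≤ (f ^ m) x + kk m * p
    linarith
  have hX2 : ∀ m, X m < x + p := by
    intro m
    have h1 := Int.ceil_lt_add_one ((x - (f ^ m) x) / p)
    have h2 : (kk m : ℝ) * p < ((x - (f ^ m) x) / p + 1) * p := mul_lt_mul_of_pos_right h1 hp
    have h3 : ((x - (f ^ m) x) / p + 1) * p = x - (f ^ m) x + p := by
      field_simp
    show (f ^ m) x + kk m * p < x + p
    linarith
  have hY : ∀ m, ac f p β (X m) = (f ^ m) (ac f p β x) + kk m * p := by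
    intro m
    rw [hXac, h.ac_ac, add_comm β, ← h.ac_ac]
    simp [ac, zpow_natCast]
  have hstep : ∀ m ≤ N, ∀ m' ≤ N, X m < X m' → ac f p β (X m) ≤ X m' := by
    intro m hm m' hm' hlt
    rw [hXac m, hXac m'] at hlt
    have h1 := h.ps_sub hlt
    have h2 := hβ.2.2 _ (by
      simp only [Prod.fst_sub]
      rw [abs_le]
      constructor <;> omega) h1 (X m)
    refine h2.trans ?_
    rw [hXac m, h.ac_ac, sub_add_cancel, ← hXac m']
  have hlast : ∀ m ≤ N, ac f p β (X m) ≤ x + p := by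
    intro m hm
    have h1 : ac f p ((m : ℤ), kk m) x < ac f p (0, 1) x := by
      rw [← hXac m]
      have : ac f p (0, 1) x = x + p := by
        simp only [ac, zpow_zero, Int.cast_one, one_mul]
        rfl
      rw [this]
      exact hX2 m
    have h2 := h.ps_sub h1
    have h3 := hβ.2.2 _ (by
      simp only [Prod.fst_sub]
      rw [abs_le]
      constructor <;> omega) h2 (X m)
    refine h3.trans ?_
    rw [hXac m, h.ac_ac, sub_add_cancel]
    simp only [ac, zpow_zero, Int.cast_one, one_mul]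
    exact le_rfl
  have hne : ∀ m m', m ≠ m' → X m ≠ X m' := by
    intro m m' hmm he
    rw [hXac m, hXac m'] at he
    have := congrArg Prod.fst (h.ac_inj he)
    simp only at this
    exact hmm (by exact_mod_cast this)
  have hdisj : Set.PairwiseDisjoint (↑(Finset.range (N + 1)))
      (fun m => Ico (X m) (ac f p β (X m))) := by
    intro m hm m' hm' hmm
    simp only [Finset.coe_range, mem_Iio] at hm hm'
    rw [Function.onFun, Set.disjoint_left]
    intro z hz hz'
    rcases lt_or_gt_of_ne (hne m m' hmm) with hlt | hlt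
    · have := hstep m (by omega) m' (by omega) hlt
      linarith [hz.2, hz'.1]
    · have := hstep m' (by omega) m (by omega) hlt
      linarith [hz'.2, hz.1]
  have hvol : ∑ m ∈ Finset.range (N + 1), volume (Ico (X m) (ac f p β (X m))) ≤
      volume (Ico x (x + p)) := by
    rw [← measure_biUnion_finset hdisj (fun m _ => measurableSet_Ico)]
    refine measure_mono ?_
    refine iUnion₂_subset fun m hm => ?_
    rw [Finset.mem_range] at hm
    exact Ico_subset_Ico (hX1 m) (hlast m (by omega))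
  simp only [Real.volume_Ico] at hvol
  have e1 : ∑ m ∈ Finset.range (N + 1), ENNReal.ofReal (ac f p β (X m) - X m) =
      ENNReal.ofReal (∑ m ∈ Finset.range (N + 1), (ac f p β (X m) - X m)) := by
    rw [ENNReal.ofReal_sum_of_nonneg]
    intro m _
    have := hβ.2.1 (X m)
    linarith
  rw [e1, add_sub_cancel_left, ENNReal.ofReal_le_ofReal_iff hp.le] at hvol
  refine le_trans (le_of_eq ?_) hvol
  refine Finset.sum_congr rfl fun m _ => ?_
  rw [hY m]
  show _ = (f ^ m) (ac f p β x) + kk m * p - ((f ^ m) x + kk m * p)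
  ring

end Pool.Agent.H25.KH
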