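import Mathlib
import Pool.Agent.H25.KH.Order

/-!
# Katok-Herman theorem (helper25), part 2: jumps and covering

`b N` is the smallest positive element with `|i| ≤ N`.  `N` is a jump if `b (N+1) ≠ b N`; then
`|(b (N+1)).1| = N + 1`, and the times of `b N`, `b (N+1)` have opposite signs.  There are
infinitely many jumps with `(b N).1` positive and large.  At such a jump the sets
`f^m [β⁻¹ x, β x]`, `0 ≤ m ≤ N`, cover everything modulo `p`.
-/

set_option autoImplicit false
open Set Filter Topology MeasureTheory Metric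

namespace Pool.Agent.H25.KH

variable {f : ℝ ≃o ℝ} {p : ℝ}

/-- a positive element moves all points by at least some `δ > 0` -/
theorem NP.disp (h : NP f p) {u : ℤ × ℤ} (hu : Ps f p u) :
    ∃ δ > 0, ∀ x, x + δ ≤ ac f p u x := by
  have hc : Continuous (fun t => ac f p u t - t) := (ac_cont u).sub continuous_id
  obtain ⟨t, ht, hmin⟩ := (isCompact_Icc (a := (0 : ℝ)) (b := p)).exists_isMinOn
    ⟨0, by simp [h.pos.le]⟩ hc.continuousOn
  refine ⟨ac f p u t - t, by linarith [hu t], fun x => ?_⟩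
  have hp := h.pos
  set k : ℤ := -⌊x / p⌋ with hk
  have h1 : 0 ≤ x + k * p := by
    have := Int.floor_le (x / p)
    rw [le_div_iff₀ hp] at this
    rw [hk]
    push_cast
    linarith
  have h2 : x + k * p ≤ p := by
    have := (Int.lt_floor_add_one (x / p)).le
    rw [div_le_iff₀ hp] at this
    rw [hk]
    push_cast
    linarith
  have h3 := hmin ⟨h1, h2⟩
  have h4 : ac f p u t - t ≤ ac f p u (x + k * p) - (x + k * p) := h3
  rw [h.ac_per] at h4
  linarith

/-- the chosen sequence of smallest positive elements -/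
noncomputable def bb (h : NP f p) (N : ℕ) : ℤ × ℤ := (h.exists_Mn N).choose

theorem bb_spec (h : NP f p) (N : ℕ) : Mn f p N (bb h N) := (h.exists_Mn N).choose_spec

theorem exists_jump (h : NP f p) (N₀ : ℕ) : ∃ N, N₀ ≤ N ∧ bb h (N + 1) ≠ bb h N := by
  by_contra hcon
  push Not at hcon
  have hconst : ∀ k, bb h (N₀ + k) = bb h N₀ := by
    intro k
    induction k with
    | zero => rfl
    | succ k ih =>
      have := hcon (N₀ + k) (by omega)
      rw [← add_assoc, this, ih]
  obtain ⟨δ, hδ, hd⟩ := h.disp (bb_spec h N₀).2.1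
  have hp := h.pos
  obtain ⟨n, hn⟩ := exists_nat_gt (p / δ)
  have hn' : p < n * δ := by rwa [div_lt_iff₀ hδ] at hn
  have hpack := h.packing (bb_spec h (N₀ + n)) 0
  rw [hconst n] at hpack
  have h1 : ∀ m ∈ Finset.range (N₀ + n + 1), δ ≤
      (f ^ m) (ac f p (bb h N₀) 0) - (f ^ m) 0 := by
    intro m _
    have h2 := hd ((f ^ m) 0)
    have h3 : (f ^ m) 0 = ac f p ((m : ℤ), 0) 0 := by simp [ac, zpow_natCast]
    have h4 : ac f p (bb h N₀) ((f ^ m) 0) = (f ^ m) (ac f p (bb h N₀) 0) := by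
      rw [h3, h.ac_ac, add_comm, ← h.ac_ac]
      simp [ac, zpow_natCast]
    rw [h4] at h2
    linarith
  have h5 := Finset.card_nsmul_le_sum (Finset.range (N₀ + n + 1)) _ _ h1
  rw [Finset.card_range, nsmul_eq_mul] at h5
  push_cast at h5
  have h6 : (0 : ℝ) ≤ N₀ * δ := by positivity
  nlinarith

/-- `bb` does not change before the next jump -/
theorem next_jump (h : NP f p) (N₀ : ℕ) :
    ∃ N, N₀ ≤ N ∧ bb h (N + 1) ≠ bb h N ∧ bb h N = bb h N₀ := by
  classical
  have hex := exists_jump h N₀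
  have hspec := Nat.find_spec hex
  have hmin := fun m => Nat.find_min hex (m := m)
  generalize Nat.find hex = N at hspec hmin
  refine ⟨N, hspec.1, hspec.2, ?_⟩
  have hind : ∀ k, N₀ + k ≤ N → bb h (N₀ + k) = bb h N₀ := by
    intro k
    induction k with
    | zero => intro _; rfl
    | succ k ih =>
      intro hk
      have h1 := ih (by omega)
      have h2 := hmin (N₀ + k) (by omega)
      push Not at h2
      rw [← add_assoc, h2 (by omega), h1]
  have := hind (N - N₀) (by omega)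
  rwa [show N₀ + (N - N₀) = N by omega] at this

theorem jump_time (h : NP f p) {N : ℕ} (hj : bb h (N + 1) ≠ bb h N) :
    |(bb h (N + 1)).1| = N + 1 := by
  have h1 := (bb_spec h (N + 1)).1
  push_cast at h1
  by_contra hne
  have h2 : |(bb h (N + 1)).1| ≤ N := by omega
  apply hj
  refine h.Mn_unique (N := N) ⟨h2, (bb_spec h (N + 1)).2.1, ?_⟩ (bb_spec h N)
  intro v hv hps x
  exact (bb_spec h (N + 1)).2.2 v (by push_cast; omega) hps x

theorem jump_lt (h : NP f p) {N : ℕ} (hj : bb h (N + 1) ≠ bb h N) (x : ℝ) :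
    ac f p (bb h (N + 1)) x < ac f p (bb h N) x := by
  have h1 := h.Mn_antitone (Nat.le_succ N) (bb_spec h N) (bb_spec h (N + 1)) x
  rcases h1.lt_or_eq with h2 | h2
  · exact h2
  · exact absurd (h.ac_inj h2) hj

theorem time_ne (h : NP f p) {N : ℕ} (hN : 1 ≤ N) {β : ℤ × ℤ} (hβ : Mn f p N β) : β.1 ≠ 0 := by
  intro h0
  have hp := h.pos
  have hβ0 : ac f p β 0 = β.2 * p := by
    unfold ac
    rw [h0]
    simp
  have hpos := hβ.2.1 0
  rw [hβ0] at hpos
  have h1 : 1 ≤ β.2 := by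
    have : (0 : ℝ) < β.2 := by
      by_contra hc
      push Not at hc
      nlinarith
    exact_mod_cast this
  have h1' : (1 : ℝ) ≤ β.2 := by exact_mod_cast h1
  set k : ℤ := ⌊-(f 0) / p⌋ + 1 with hk
  have hk' : (k : ℝ) = (⌊-(f 0) / p⌋ : ℝ) + 1 := by rw [hk]; push_cast; rfl
  have h2 : 0 < f 0 + k * p := by
    have := Int.lt_floor_add_one (-(f 0) / p)
    rw [div_lt_iff₀ hp] at this
    rw [hk']
    linarith
  have h3 : f 0 + k * p ≤ p := by
    have := Int.floor_le (-(f 0) / p)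
    rw [le_div_iff₀ hp] at this
    rw [hk']
    linarith
  have h4 : f 0 + k * p ≠ p := by
    intro he
    refine h.np 1 one_pos (1 - k) 0 ?_
    rw [pow_one]
    push_cast
    linarith
  have h5 : f 0 + k * p < p := lt_of_le_of_ne h3 h4
  have e : ac f p (1, k) 0 = f 0 + k * p := by
    unfold ac
    rw [zpow_one]
  have h6 : Ps f p (1, k) := h.ps (x := 0) (by rw [e]; exact h2)
  have h7 := hβ.2.2 (1, k) (by simpa using hN) h6 0
  rw [e, hβ0] at h7
  nlinarith

theorem jump_sign (h : NP f p) {N : ℕ} (hN : 1 ≤ N) (hj : bb h (N + 1) ≠ bb h N) :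
    (0 < (bb h N).1 ∧ (bb h (N + 1)).1 = -((N : ℤ) + 1)) ∨
    ((bb h N).1 < 0 ∧ (bb h (N + 1)).1 = (N : ℤ) + 1) := by
  have h1 := jump_time h hj
  have h2 := time_ne h hN (bb_spec h N)
  have h3 := (bb_spec h N).1
  have hlt := jump_lt h hj
  have key : |(bb h N).1 - (bb h (N + 1)).1| ≤ N → False := by
    intro hle
    have h4 := h.ps_sub (hlt 0)
    have h5 := (bb_spec h N).2.2 (bb h N - bb h (N + 1)) (by
      rw [Prod.fst_sub]
      exact hle) h4 (ac f p (bb h (N + 1)) 0)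
    rw [h.ac_ac (bb h N - bb h (N + 1)), sub_add_cancel] at h5
    have h6 := (ac_mono (f := f) (p := p) (bb h N)) ((bb_spec h (N + 1)).2.1 0)
    linarith
  rcases abs_eq (by positivity : (0 : ℤ) ≤ (N : ℤ) + 1) |>.1 h1 with h4 | h4
  · right
    refine ⟨?_, h4⟩
    by_contra hc
    apply key
    rw [h4]
    rw [abs_le] at h3 ⊢
    constructor <;> omega
  · left
    refine ⟨?_, h4⟩
    by_contra hc
    apply key
    rw [h4]
    rw [abs_le] at h3 ⊢
    constructor <;> omega

/-- infinitely many jumps with a large positive time -/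
theorem jump_pos (h : NP f p) (N₀ : ℕ) :
    ∃ N, N₀ ≤ N ∧ bb h (N + 1) ≠ bb h N ∧ (N₀ : ℤ) < (bb h N).1 := by
  obtain ⟨N1, hN1, hj1⟩ := exists_jump h (N₀ + 1)
  rcases jump_sign h (by omega) hj1 with ⟨_, h1⟩ | ⟨_, h1⟩
  · obtain ⟨N2, hN2, hj2, he2⟩ := next_jump h (N1 + 1)
    rcases jump_sign h (by omega) hj2 with ⟨h2, _⟩ | ⟨_, h2⟩
    · rw [he2, h1] at h2
      omega
    · obtain ⟨N3, hN3, hj3, he3⟩ := next_jump h (N2 + 1)
      refine ⟨N3, by omega, hj3, ?_⟩
      rw [he3, h2]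
      omega
  · obtain ⟨N2, hN2, hj2, he2⟩ := next_jump h (N1 + 1)
    refine ⟨N2, by omega, hj2, ?_⟩
    rw [he2, h1]
    omega

/-- covering at a jump with positive time -/
theorem covering (h : NP f p) {N : ℕ} (hN : 1 ≤ N) (hj : bb h (N + 1) ≠ bb h N)
    (hpos : 0 < (bb h N).1) (x z : ℝ) :
    ∃ m : ℕ, m ≤ N ∧ ∃ k : ℤ, ac f p (-(bb h N)) ((f ^ m) x + k * p) ≤ z ∧
      z ≤ ac f p (bb h N) ((f ^ m) x + k * p) := by
  have hp := h.pos
  rcases jump_sign h hN hj with ⟨_, hγ⟩ | ⟨hneg, _⟩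
  swap
  · omega
  set β := bb h N with hβdef
  set γ := bb h (N + 1) with hγdef
  have hβ := bb_spec h N
  rw [← hβdef] at hβ
  have hγs := bb_spec h (N + 1)
  rw [← hγdef] at hγs
  have hlt := jump_lt h hj
  rw [← hβdef, ← hγdef] at hlt
  -- the largest point of the finite orbit which is at most `z`
  set kk : ℕ → ℤ := fun m => ⌊(z - (f ^ m) x) / p⌋ with hkk
  have hk1 : ∀ m, (f ^ m) x + kk m * p ≤ z := by
    intro m
    have := Int.floor_le ((z - (f ^ m) x) / p)
    rw [le_div_iff₀ hp] at this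
    show (f ^ m) x + ((⌊(z - (f ^ m) x) / p⌋ : ℤ) : ℝ) * p ≤ z
    linarith
  have hk2 : ∀ (m : ℕ) (l : ℤ), (f ^ m) x + l * p ≤ z → l ≤ kk m := by
    intro m l hl
    rw [hkk]
    refine Int.le_floor.2 ?_
    rw [le_div_iff₀ hp]
    linarith
  obtain ⟨m, hm, hmax⟩ := Finset.exists_max_image (Finset.range (N + 1))
    (fun m => (f ^ m) x + kk m * p) ⟨0, by simp⟩
  rw [Finset.mem_range] at hm
  set u : ℝ := (f ^ m) x + kk m * p with hu
  have hue : u = ac f p ((m : ℤ), kk m) x := by simp [hu, ac, zpow_natCast]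
  -- every point of the finite orbit above `u` is above `z`
  have habove : ∀ (j : ℕ) (l : ℤ), j ≤ N → u < (f ^ j) x + l * p → z < (f ^ j) x + l * p := by
    intro j l hjN hlt'
    by_contra hcon
    push Not at hcon
    have h1 := hk2 j l hcon
    have h2 := hmax j (by rw [Finset.mem_range]; omega)
    have h3 : (l : ℝ) ≤ kk j := by exact_mod_cast h1
    have h4 : (l : ℝ) * p ≤ kk j * p := mul_le_mul_of_nonneg_right h3 hp.le
    have h5 : (f ^ j) x + kk j * p ≤ u := h2
    linarith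
  have hacu : ∀ v : ℤ × ℤ, 0 ≤ v.1 + m → v.1 + m ≤ N →
      ∃ j : ℕ, j ≤ N ∧ ∃ l : ℤ, ac f p v u = (f ^ j) x + l * p := by
    intro v h0 h1
    refine ⟨(v.1 + m).toNat, by omega, v.2 + kk m, ?_⟩
    rw [hue, h.ac_ac]
    unfold ac
    simp only [Prod.fst_add, Prod.snd_add]
    have e : (f ^ (v.1 + (m : ℤ))) x = (f ^ (v.1 + m).toNat) x := by
      rw [← zpow_natCast]
      congr 2
      omega
    rw [e]
  by_cases hcase : β.1 + m ≤ N
  · refine ⟨m, by omega, kk m, ?_, ?_⟩
    · exact (h.neg_lt hβ.2.1 u).le.trans (hk1 m)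
    · obtain ⟨j, hjN, l, hjl⟩ := hacu β (by omega) hcase
      have h1 := habove j l hjN (by rw [← hjl]; exact hβ.2.1 u)
      show z ≤ ac f p β u
      rw [hjl]
      exact h1.le
  · push Not at hcase
    have hm' : (0 : ℤ) ≤ (β + γ).1 + m ∧ (β + γ).1 + m ≤ N := by
      rw [Prod.fst_add, hγ]
      have := (abs_le.1 hβ.1).2
      constructor <;> omega
    obtain ⟨j, hjN, l, hjl⟩ := hacu (β + γ) hm'.1 hm'.2
    have hgt : u < ac f p (β + γ) u := by
      rw [← h.ac_ac]
      exact (hγs.2.1 u).trans (hβ.2.1 _)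
    have h1 := habove j l hjN (by rw [← hjl]; exact hgt)
    by_cases hz : z ≤ ac f p β u
    · exact ⟨m, by omega, kk m, (h.neg_lt hβ.2.1 u).le.trans (hk1 m), hz⟩
    · push Not at hz
      refine ⟨j, hjN, l, ?_, ?_⟩
      · rw [← hjl, h.ac_ac, neg_add_cancel_left]
        exact (hlt u).le.trans hz.le
      · exact h1.le.trans (hβ.2.1 _).le

end Pool.Agent.H25.KH
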