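import Mathlib
import Pool.Agent.H25.KH.Jump

/-!
# Katok-Herman theorem (helper25), part 3: distortion and Denjoy's theorem

`DD f m y` is the derivative of `f^m` at `y`.  By the packing lemma all `f^m`, `m ≤ N + 1`, have
distortion at most `exp (L S)` on an interval whose images have total length at most `S`.
Denjoy (Schwartz lemma): `b_N x → x`.
-/

set_option autoImplicit false
open Set Filter Topology MeasureTheory Metric

namespace Pool.Agent.H25.KH

/-- regular circle diffeomorphisms without periodic points -/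
structure KHD (f : ℝ ≃o ℝ) (p L : ℝ) : Prop extends NP f p where
  Lpos : 0 < L
  diff : ∀ x, DifferentiableAt ℝ f x
  dpos : ∀ x, 0 < deriv f x
  lip : ∀ x y, |Real.log (deriv f x) - Real.log (deriv f y)| ≤ L * |x - y|

variable {f : ℝ ≃o ℝ} {p L : ℝ}

/-- the derivative of `f^m` -/
noncomputable def DD (f : ℝ ≃o ℝ) (m : ℕ) (y : ℝ) : ℝ :=
  ∏ i ∈ Finset.range m, deriv f ((f ^ i) y)

theorem KHD.DD_pos (h : KHD f p L) (m : ℕ) (y : ℝ) : 0 < DD f m y :=
  Finset.prod_pos fun _ _ => h.dpos _

theorem KHD.hasDerivAt (h : KHD f p L) (m : ℕ) (y : ℝ) :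
    HasDerivAt (fun t => (f ^ m) t) (DD f m y) y := by
  induction m with
  | zero =>
    have e : (fun t : ℝ => (f ^ 0) t) = fun t => t := by
      funext t
      rw [pow_zero]
      rfl
    rw [e]
    have e2 : DD f 0 y = 1 := by simp [DD]
    rw [e2]
    exact hasDerivAt_id' y
  | succ m ih =>
    have e : (fun t : ℝ => (f ^ (m + 1)) t) = fun t => f ((f ^ m) t) := by
      funext t
      rw [pow_succ']
      rfl
    rw [e]
    have h1 := (h.diff ((f ^ m) y)).hasDerivAt
    have h2 := h1.comp y ih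
    have e2 : DD f (m + 1) y = deriv f ((f ^ m) y) * DD f m y := by
      unfold DD
      rw [Finset.prod_range_succ, mul_comm]
    rw [e2]
    exact h2

theorem KHD.log_DD (h : KHD f p L) (m : ℕ) (y : ℝ) :
    Real.log (DD f m y) = ∑ i ∈ Finset.range m, Real.log (deriv f ((f ^ i) y)) := by
  unfold DD
  rw [Real.log_prod]
  intro i _
  exact (h.dpos _).ne'

theorem KHD.dist (h : KHD f p L) (m : ℕ) (y y' : ℝ) :
    |Real.log (DD f m y) - Real.log (DD f m y')| ≤
      L * ∑ i ∈ Finset.range m, |(f ^ i) y - (f ^ i) y'| := by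
  rw [h.log_DD, h.log_DD, ← Finset.sum_sub_distrib, Finset.mul_sum]
  exact (Finset.abs_sum_le_sum_abs _ _).trans (Finset.sum_le_sum fun i _ => h.lip _ _)

/-- distortion bound on an interval with small total length of images -/
theorem KHD.dist_le (h : KHD f p L) {m : ℕ} {a b S : ℝ}
    (hS : ∑ i ∈ Finset.range m, ((f ^ i) b - (f ^ i) a) ≤ S) {y y' : ℝ}
    (hy : y ∈ Icc a b) (hy' : y' ∈ Icc a b) : DD f m y ≤ Real.exp (L * S) * DD f m y' := by
  have h1 := h.dist m y y'
  have h2 : ∑ i ∈ Finset.range m, |(f ^ i) y - (f ^ i) y'| ≤ S := by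
    refine le_trans (Finset.sum_le_sum fun i _ => ?_) hS
    have m1 := (f ^ i).monotone hy.1
    have m2 := (f ^ i).monotone hy.2
    have m3 := (f ^ i).monotone hy'.1
    have m4 := (f ^ i).monotone hy'.2
    rw [abs_le]
    constructor <;> linarith
  have h3 : |Real.log (DD f m y) - Real.log (DD f m y')| ≤ L * S :=
    h1.trans (mul_le_mul_of_nonneg_left h2 h.Lpos.le)
  have h4 : Real.log (DD f m y) ≤ L * S + Real.log (DD f m y') := by
    have := (abs_le.1 h3).2
    linarith
  have h5 := Real.exp_le_exp.2 h4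
  rw [Real.exp_log (h.DD_pos m y), Real.exp_add, Real.exp_log (h.DD_pos m y')] at h5
  exact h5

/-- mean value theorem for `f^m` -/
theorem KHD.mvt (h : KHD f p L) (m : ℕ) {a b : ℝ} (hab : a < b) :
    ∃ ξ ∈ Ioo a b, (f ^ m) b - (f ^ m) a = DD f m ξ * (b - a) := by
  obtain ⟨ξ, hξ, he⟩ := exists_hasDerivAt_eq_slope (fun t => (f ^ m) t) (fun t => DD f m t) hab
    (fun t _ => (h.hasDerivAt m t).continuousAt.continuousWithinAt)
    (fun t _ => h.hasDerivAt m t)
  refine ⟨ξ, hξ, ?_⟩
  rw [he]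
  field_simp [(sub_pos.2 hab).ne']

/-- Schwartz lemma -/
theorem KHD.schwartz (h : KHD f p L) {x w : ℝ} (hxw : x < w)
    (hS : ∀ n : ℕ, ∑ i ∈ Finset.range n, ((f ^ i) w - (f ^ i) x) ≤ p) (n : ℕ) :
    ∀ y ∈ Icc w (w + (w - x) / Real.exp (2 * L * p)),
      DD f n y ≤ Real.exp (2 * L * p) * (((f ^ n) w - (f ^ n) x) / (w - x)) := by
  have hw : 0 < w - x := sub_pos.2 hxw
  have hp := h.pos
  have hL := h.Lpos
  have hC : 0 < Real.exp (2 * L * p) := Real.exp_pos _
  set C := Real.exp (2 * L * p) with hCdef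
  induction n using Nat.strong_induction_on with
  | _ n ih =>
    intro y hy
    -- total length of the images of `[w, y]`
    have h1 : ∑ i ∈ Finset.range n, ((f ^ i) y - (f ^ i) w) ≤ p := by
      refine le_trans (Finset.sum_le_sum (g := fun i => (f ^ i) w - (f ^ i) x) fun i hi => ?_)
        (hS n)
      rw [Finset.mem_range] at hi
      have hmono : (f ^ i) x ≤ (f ^ i) w := (f ^ i).monotone hxw.le
      rcases hy.1.eq_or_lt with he | hlt
      · rw [← he, sub_self]
        linarith
      · obtain ⟨ξ, hξ, he⟩ := h.mvt i hlt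
        rw [he]
        have h2 := ih i hi ξ ⟨hξ.1.le, (hξ.2.le).trans hy.2⟩
        have h3 : y - w ≤ (w - x) / C := by linarith [hy.2]
        calc DD f i ξ * (y - w) ≤ (C * (((f ^ i) w - (f ^ i) x) / (w - x))) * ((w - x) / C) := by
              refine mul_le_mul h2 h3 (by linarith) ?_
              have : 0 ≤ (f ^ i) w - (f ^ i) x := by linarith
              positivity
          _ = (f ^ i) w - (f ^ i) x := by
              field_simp
    obtain ⟨η, hη, he⟩ := h.mvt n hxw
    have h4 : ∑ i ∈ Finset.range n, ((f ^ i) y - (f ^ i) x) ≤ 2 * p := by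
      have : ∑ i ∈ Finset.range n, ((f ^ i) y - (f ^ i) x) =
          ∑ i ∈ Finset.range n, ((f ^ i) y - (f ^ i) w) +
          ∑ i ∈ Finset.range n, ((f ^ i) w - (f ^ i) x) := by
        rw [← Finset.sum_add_distrib]
        refine Finset.sum_congr rfl fun i _ => ?_
        ring
      rw [this]
      have := hS n
      linarith
    have h5 := h.dist_le h4 (y := y) (y' := η) ⟨hxw.le.trans hy.1, le_rfl⟩
      ⟨hη.1.le, hη.2.le.trans hy.1⟩
    have h6 : DD f n η = ((f ^ n) w - (f ^ n) x) / (w - x) := by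
      rw [he]
      field_simp
    rw [h6, show L * (2 * p) = 2 * L * p by ring] at h5
    exact h5

theorem KHD.images_le (h : KHD f p L) {x w : ℝ} (hw : ∀ N, w ≤ ac f p (bb h.toNP N) x) (n : ℕ) :
    ∑ i ∈ Finset.range n, ((f ^ i) w - (f ^ i) x) ≤ p := by
  have h1 := h.toNP.packing (bb_spec h.toNP n) x
  refine le_trans ?_ h1
  refine (Finset.sum_le_sum (g := fun i => (f ^ i) (ac f p (bb h.toNP n) x) - (f ^ i) x)
    fun i _ => ?_).trans ?_
  · have := (f ^ i).monotone (hw n)
    linarith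
  · refine Finset.sum_le_sum_of_subset_of_nonneg ?_ fun i _ _ => ?_
    · intro i hi
      rw [Finset.mem_range] at hi ⊢
      omega
    · have := (f ^ i).monotone ((bb_spec h.toNP n).2.1 x).le
      linarith

/-- Denjoy's theorem: `b_N x → x` from the right -/
theorem KHD.denjoy (h : KHD f p L) (x : ℝ) {ε : ℝ} (hε : 0 < ε) :
    ∃ N₀, ∀ N ≥ N₀, ac f p (bb h.toNP N) x < x + ε := by
  have hp := h.pos
  have hanti : Antitone (fun N => ac f p (bb h.toNP N) x) := fun N M hNM =>
    h.toNP.Mn_antitone hNM (bb_spec _ N) (bb_spec _ M) x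
  have hbdd : BddBelow (range fun N => ac f p (bb h.toNP N) x) :=
    ⟨x, by rintro _ ⟨N, rfl⟩; exact ((bb_spec h.toNP N).2.1 x).le⟩
  set w := ⨅ N, ac f p (bb h.toNP N) x with hwdef
  have hw : ∀ N, w ≤ ac f p (bb h.toNP N) x := fun N => ciInf_le hbdd N
  have hxw : x ≤ w := le_ciInf fun N => ((bb_spec h.toNP N).2.1 x).le
  have hlim := tendsto_atTop_ciInf hanti hbdd
  rcases hxw.eq_or_lt with he | hlt
  · rw [← hwdef, ← he] at hlim
    have := hlim.eventually (eventually_lt_nhds (show x < x + ε by linarith))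
    exact eventually_atTop.1 this
  · exfalso
    have hS := fun n => h.images_le hw n
    have hwx : 0 < w - x := sub_pos.2 hlt
    have hC : 0 < Real.exp (2 * L * p) := Real.exp_pos _
    set C := Real.exp (2 * L * p) with hCdef
    set δ := (w - x) / C with hδ
    have hδ0 : 0 < δ := by positivity
    have hnn : ∀ i, 0 ≤ (f ^ i) w - (f ^ i) x := fun i => by
      have := (f ^ i).monotone hxw
      linarith
    have hsum : Summable (fun i => (f ^ i) w - (f ^ i) x) :=
      summable_of_sum_range_le hnn hS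
    have ht := hsum.tendsto_atTop_zero
    obtain ⟨M, hM⟩ := eventually_atTop.1
      (ht.eventually (eventually_lt_nhds (show (0 : ℝ) < δ / 8 by positivity)))
    obtain ⟨N1, hN1⟩ := eventually_atTop.1
      (hlim.eventually (eventually_lt_nhds (show w < w + δ / 2 by linarith)))
    obtain ⟨N, hN, _, hq⟩ := jump_pos h.toNP (max N1 M)
    have hNN1 : N1 ≤ N := (le_max_left _ _).trans hN
    obtain ⟨q, hq'⟩ : ∃ q : ℕ, (bb h.toNP N).1 = q := ⟨(bb h.toNP N).1.toNat, by omega⟩
    have hqM : M ≤ q := by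
      have : M ≤ max N1 M := le_max_right _ _
      omega
    have h1 := hN1 N hNN1
    have h2 := hM q hqM
    -- the length of the image of `[w, w + δ]`
    obtain ⟨ξ, hξ, he⟩ := h.mvt q (show w < w + δ by linarith)
    have h3 := h.schwartz hlt hS q ξ ⟨hξ.1.le, by rw [← hCdef]; exact hξ.2.le⟩
    have h4 : (f ^ q) (w + δ) - (f ^ q) w ≤ (f ^ q) w - (f ^ q) x := by
      rw [he, add_sub_cancel_left]
      calc DD f q ξ * δ ≤ (C * (((f ^ q) w - (f ^ q) x) / (w - x))) * δ :=
            mul_le_mul_of_nonneg_right h3 hδ0.le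
        _ = (f ^ q) w - (f ^ q) x := by
            rw [hδ]
            field_simp
    have hac : ∀ t, ac f p (bb h.toNP N) t = (f ^ q) t + (bb h.toNP N).2 * p := by
      intro t
      unfold ac
      rw [hq', zpow_natCast]
    have h5 := (bb_spec h.toNP N).2.1 (w + δ)
    rw [hac] at h5 h1
    linarith

/-- Denjoy's theorem from the left -/
theorem KHD.denjoy' (h : KHD f p L) (x : ℝ) {ε : ℝ} (hε : 0 < ε) :
    ∃ N₀, ∀ N ≥ N₀, x - ε < ac f p (-(bb h.toNP N)) x := by
  obtain ⟨N₀, hN₀⟩ := h.denjoy (x - ε) hε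
  refine ⟨N₀, fun N hN => ?_⟩
  by_contra hcon
  push Not at hcon
  have h1 := (ac_mono (f := f) (p := p) (bb h.toNP N)).monotone hcon
  rw [h.toNP.ac_ac, add_neg_cancel, ac_zero] at h1
  have h2 := hN₀ N hN
  linarith

end Pool.Agent.H25.KH
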