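import Mathlib
import Pool.Agent.H25.KH.Dist

/-!
# Katok-Herman theorem (helper25), part 4: ergodicity

A circle diffeomorphism of class `C²` without periodic points is ergodic with respect to Lebesgue
measure.
-/

set_option autoImplicit false
open Set Filter Topology MeasureTheory Metric

namespace Pool.Agent.H25.KH

variable {f : ℝ ≃o ℝ} {p L : ℝ}

theorem NP.pack2 (h : NP f p) {N : ℕ} {β : ℤ × ℤ} (hβ : Mn f p N β) (x : ℝ) :
    ∑ m ∈ Finset.range (N + 1), ((f ^ m) (ac f p β x) - (f ^ m) (ac f p (-β) x)) ≤ 2 * p := by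
  have h1 := h.packing hβ x
  have h2 := h.packing hβ (ac f p (-β) x)
  rw [h.ac_ac, add_neg_cancel, ac_zero] at h2
  have h3 : ∑ m ∈ Finset.range (N + 1), ((f ^ m) (ac f p β x) - (f ^ m) (ac f p (-β) x)) =
      ∑ m ∈ Finset.range (N + 1), ((f ^ m) (ac f p β x) - (f ^ m) x) +
      ∑ m ∈ Finset.range (N + 1), ((f ^ m) x - (f ^ m) (ac f p (-β) x)) := by
    rw [← Finset.sum_add_distrib]
    refine Finset.sum_congr rfl fun i _ => ?_
    ring
  rw [h3]
  linarith

theorem inv_pow {S : Set ℝ} (hS : ∀ y, f y ∈ S ↔ y ∈ S) (m : ℕ) (y : ℝ) :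
    (f ^ m) y ∈ S ↔ y ∈ S := by
  induction m generalizing y with
  | zero => rfl
  | succ m ih =>
    have e : (f ^ (m + 1)) y = f ((f ^ m) y) := by
      rw [pow_succ']
      rfl
    rw [e, hS, ih]

theorem inv_add {S : Set ℝ} (hS : ∀ y, y + p ∈ S ↔ y ∈ S) (k : ℤ) (y : ℝ) :
    y + k * p ∈ S ↔ y ∈ S := by
  induction k using Int.induction_on generalizing y with
  | zero => simp
  | succ k ih =>
    have e : y + ((k : ℤ) + 1 : ℤ) * p = (y + (k : ℤ) * p) + p := by
      push_cast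
      ring
    rw [e, hS, ih]
  | pred k ih =>
    have e : y + (-(k : ℤ) : ℤ) * p = (y + (-(k : ℤ) - 1 : ℤ) * p) + p := by
      push_cast
      ring
    rw [← hS, ← e, ih]

/-- the measure of an invariant set in the image of `[β⁻¹ x, β x]` -/
theorem KHD.image (h : KHD f p L) {N : ℕ} {β : ℤ × ℤ} (hβ : Mn f p N β) {m : ℕ} (hm : m ≤ N)
    (x : ℝ) {S : Set ℝ} (hSm : MeasurableSet S) (hS : ∀ y, f y ∈ S ↔ y ∈ S) :
    volume (S ∩ Icc ((f ^ m) (ac f p (-β) x)) ((f ^ m) (ac f p β x))) ≤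
      ENNReal.ofReal (Real.exp (2 * L * p) *
        (((f ^ m) (ac f p β x) - (f ^ m) (ac f p (-β) x)) / (ac f p β x - ac f p (-β) x))) *
        volume (S ∩ Icc (ac f p (-β) x) (ac f p β x)) := by
  have hab : ac f p (-β) x < ac f p β x := (h.toNP.neg_lt hβ.2.1 x).trans (hβ.2.1 x)
  set a := ac f p (-β) x with ha
  set b := ac f p β x with hb
  have himg : S ∩ Icc ((f ^ m) a) ((f ^ m) b) = (fun t => (f ^ m) t) '' (S ∩ Icc a b) := by
    ext z
    constructor
    · rintro ⟨hz, hz1, hz2⟩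
      refine ⟨(f ^ m).symm z, ⟨?_, ?_, ?_⟩, (f ^ m).apply_symm_apply z⟩
      · rw [← inv_pow hS m, (f ^ m).apply_symm_apply]
        exact hz
      · rw [← (f ^ m).le_iff_le, (f ^ m).apply_symm_apply]
        exact hz1
      · rw [← (f ^ m).le_iff_le, (f ^ m).apply_symm_apply]
        exact hz2
    · rintro ⟨y, ⟨hy, hy1, hy2⟩, rfl⟩
      exact ⟨(inv_pow hS m y).2 hy, (f ^ m).monotone hy1, (f ^ m).monotone hy2⟩
  rw [himg]
  have hTm : MeasurableSet (S ∩ Icc a b) := hSm.inter measurableSet_Icc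
  have hvol := lintegral_image_eq_lintegral_abs_deriv_mul (s := S ∩ Icc a b)
    (f := fun t => (f ^ m) t) (f' := fun t => DD f m t) hTm
    (fun t _ => (h.hasDerivAt m t).hasDerivWithinAt) ((f ^ m).injective.injOn) (fun _ => 1)
  rw [setLIntegral_one] at hvol
  rw [hvol]
  have hS2 : ∑ i ∈ Finset.range m, ((f ^ i) b - (f ^ i) a) ≤ 2 * p := by
    refine le_trans (Finset.sum_le_sum_of_subset_of_nonneg ?_ fun i _ _ => ?_)
      (h.toNP.pack2 hβ x)
    · intro i hi
      rw [Finset.mem_range] at hi ⊢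
      omega
    · have := (f ^ i).monotone hab.le
      linarith
  obtain ⟨ξ, hξ, he⟩ := h.mvt m hab
  have hbound : ∀ t ∈ S ∩ Icc a b, ENNReal.ofReal |DD f m t| * 1 ≤
      ENNReal.ofReal (Real.exp (2 * L * p) * (((f ^ m) b - (f ^ m) a) / (b - a))) := by
    intro t ht
    rw [mul_one, abs_of_pos (h.DD_pos m t)]
    refine ENNReal.ofReal_le_ofReal ?_
    have h1 := h.dist_le hS2 ht.2 (Ioo_subset_Icc_self hξ)
    rw [show L * (2 * p) = 2 * L * p by ring] at h1
    have h2 : ((f ^ m) b - (f ^ m) a) / (b - a) = DD f m ξ := by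
      rw [he]
      have : b - a ≠ 0 := (sub_pos.2 hab).ne'
      field_simp
    rw [h2]
    exact h1
  calc ∫⁻ t in S ∩ Icc a b, ENNReal.ofReal |DD f m t| * 1
      ≤ ∫⁻ _ in S ∩ Icc a b, ENNReal.ofReal
          (Real.exp (2 * L * p) * (((f ^ m) b - (f ^ m) a) / (b - a))) :=
        setLIntegral_mono measurable_const hbound
    _ = _ := by rw [setLIntegral_const]

theorem vol_shift {S : Set ℝ} (hS : ∀ y, y + p ∈ S ↔ y ∈ S) (k : ℤ) (c d : ℝ) :
    volume (S ∩ Icc (c + k * p) (d + k * p)) = volume (S ∩ Icc c d) := by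
  have e : (fun y : ℝ => y + k * p) ⁻¹' (S ∩ Icc (c + k * p) (d + k * p)) = S ∩ Icc c d := by
    ext y
    simp only [mem_preimage, mem_inter_iff, mem_Icc, inv_add hS k, add_le_add_iff_right]
  rw [← e, measure_preimage_add_right]

/-- covering estimate -/
theorem KHD.cover (h : KHD f p L) {N : ℕ} (hN : 1 ≤ N)
    (hj : bb h.toNP (N + 1) ≠ bb h.toNP N) (hpos : 0 < (bb h.toNP N).1) (x : ℝ)
    {S : Set ℝ} (hST : ∀ y, y + p ∈ S ↔ y ∈ S) :
    volume (S ∩ Ico x (x + p)) ≤ ∑ m ∈ Finset.range (N + 1),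
      3 * volume (S ∩ Icc ((f ^ m) (ac f p (-(bb h.toNP N)) x))
        ((f ^ m) (ac f p (bb h.toNP N) x))) := by
  have hp := h.pos
  have hβ := bb_spec h.toNP N
  set β := bb h.toNP N with hβdef
  set a := ac f p (-β) x with ha
  set b := ac f p β x with hb
  set kk : ℕ → ℤ := fun m => ⌈(x - (f ^ m) x) / p⌉ with hkk
  have hfm : ∀ (v : ℤ × ℤ) (m : ℕ) (k : ℤ), ac f p v ((f ^ m) x + k * p) =
      (f ^ m) (ac f p v x) + k * p := by
    intro v m k
    have e : (f ^ m) x + k * p = ac f p ((m : ℤ), k) x := by simp [ac, zpow_natCast]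
    rw [e, h.toNP.ac_ac, add_comm v, ← h.toNP.ac_ac]
    simp [ac, zpow_natCast]
  have hsub : S ∩ Ico x (x + p) ⊆ ⋃ m ∈ Finset.range (N + 1), ⋃ j ∈ Finset.range 3,
      S ∩ Icc ((f ^ m) a + ((kk m + j - 1 : ℤ) : ℝ) * p)
        ((f ^ m) b + ((kk m + j - 1 : ℤ) : ℝ) * p) := by
    rintro z ⟨hz, hz1, hz2⟩
    obtain ⟨m, hm, k, hk1, hk2⟩ := covering h.toNP hN hj hpos x z
    rw [← hβdef] at hk1 hk2
    have hu1 := h.toNP.Mn_le_T hβ ((f ^ m) x + k * p)
    have hu2 : (f ^ m) x + k * p - p ≤ ac f p (-β) ((f ^ m) x + k * p) := by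
      by_contra hcon
      push Not at hcon
      have h1 := ac_mono (f := f) (p := p) β hcon
      rw [h.toNP.ac_ac, add_neg_cancel, ac_zero] at h1
      have h2 := h.toNP.Mn_le_T hβ ((f ^ m) x + k * p - p)
      linarith
    have hc1 := Int.le_ceil ((x - (f ^ m) x) / p)
    have hc2 := Int.ceil_lt_add_one ((x - (f ^ m) x) / p)
    have hkm : (kk m : ℝ) = (⌈(x - (f ^ m) x) / p⌉ : ℝ) := rfl
    rw [← hkm] at hc1 hc2
    rw [div_le_iff₀ hp] at hc1
    have hc2' : (kk m : ℝ) * p < x - (f ^ m) x + p := by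
      have h3 : ((x - (f ^ m) x) / p + 1) * p = x - (f ^ m) x + p := by
        field_simp
      have := mul_lt_mul_of_pos_right hc2 hp
      linarith
    have hd1 : (k : ℝ) * p < (kk m : ℝ) * p + 2 * p := by linarith
    have hd2 : (kk m : ℝ) * p < (k : ℝ) * p + 2 * p := by linarith
    have hd1' : k < kk m + 2 := by
      have : (k : ℝ) < kk m + 2 := by nlinarith
      exact_mod_cast this
    have hd2' : kk m < k + 2 := by
      have : (kk m : ℝ) < k + 2 := by nlinarith
      exact_mod_cast this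
    obtain ⟨j, hj3, hjk⟩ : ∃ j : ℕ, j < 3 ∧ k = kk m + j - 1 :=
      ⟨(k - kk m + 1).toNat, by omega, by omega⟩
    simp only [mem_iUnion]
    refine ⟨m, by rw [Finset.mem_range]; omega, j, by rw [Finset.mem_range]; exact hj3, hz, ?_⟩
    rw [← hjk]
    rw [hfm] at hk1 hk2
    exact ⟨hk1, hk2⟩
  refine (measure_mono hsub).trans ((measure_biUnion_finset_le _ _).trans ?_)
  refine Finset.sum_le_sum fun m _ => ?_
  refine (measure_biUnion_finset_le _ _).trans ?_
  have : ∀ j ∈ Finset.range 3, volume (S ∩ Icc ((f ^ m) a + ((kk m + j - 1 : ℤ) : ℝ) * p)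
        ((f ^ m) b + ((kk m + j - 1 : ℤ) : ℝ) * p)) = volume (S ∩ Icc ((f ^ m) a) ((f ^ m) b)) :=
    fun j _ => vol_shift hST _ _ _
  rw [Finset.sum_congr rfl this]
  simp

/-- the main estimate -/
theorem KHD.est (h : KHD f p L) {N : ℕ} (hN : 1 ≤ N)
    (hj : bb h.toNP (N + 1) ≠ bb h.toNP N) (hpos : 0 < (bb h.toNP N).1) (x : ℝ)
    {S : Set ℝ} (hSm : MeasurableSet S) (hS : ∀ y, f y ∈ S ↔ y ∈ S)
    (hST : ∀ y, y + p ∈ S ↔ y ∈ S) :
    volume (S ∩ Ico x (x + p)) ≤ ENNReal.ofReal (3 * (Real.exp (2 * L * p) * (2 * p))) *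
      (volume (S ∩ Icc (ac f p (-(bb h.toNP N)) x) (ac f p (bb h.toNP N) x)) /
        volume (Icc (ac f p (-(bb h.toNP N)) x) (ac f p (bb h.toNP N) x))) := by
  have hβ := bb_spec h.toNP N
  have hp := h.pos
  refine (h.cover hN hj hpos x hST).trans ?_
  set β := bb h.toNP N with hβdef
  have hab : ac f p (-β) x < ac f p β x := (h.toNP.neg_lt hβ.2.1 x).trans (hβ.2.1 x)
  have hpack := h.toNP.pack2 hβ x
  have himage := fun (m : ℕ) (hm : m ≤ N) => h.image hβ hm x hSm hS
  set a := ac f p (-β) x with ha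
  set b := ac f p β x with hb
  have hba : 0 < b - a := sub_pos.2 hab
  have hnn : ∀ m : ℕ, 0 ≤ (f ^ m) b - (f ^ m) a := fun m => by
    have := (f ^ m).monotone hab.le
    linarith
  have hE : 0 < Real.exp (2 * L * p) := Real.exp_pos _
  set E := Real.exp (2 * L * p) with hEdef
  have h1 : ∑ m ∈ Finset.range (N + 1), 3 * volume (S ∩ Icc ((f ^ m) a) ((f ^ m) b)) ≤
      ∑ m ∈ Finset.range (N + 1), ENNReal.ofReal (3 * (E * (((f ^ m) b - (f ^ m) a) / (b - a)))) *
        volume (S ∩ Icc a b) := by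
    refine Finset.sum_le_sum fun m hm => ?_
    rw [Finset.mem_range] at hm
    have h2 := himage m (by omega)
    rw [ENNReal.ofReal_mul (by norm_num), mul_assoc]
    have e3 : ENNReal.ofReal 3 = 3 := by norm_num
    rw [e3]
    gcongr
  refine h1.trans ?_
  rw [← Finset.sum_mul, ← ENNReal.ofReal_sum_of_nonneg (fun m _ => by
    have := hnn m
    positivity)]
  have e4 : ∑ m ∈ Finset.range (N + 1), 3 * (E * (((f ^ m) b - (f ^ m) a) / (b - a))) =
      3 * (E * (∑ m ∈ Finset.range (N + 1), ((f ^ m) b - (f ^ m) a))) / (b - a) := by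
    rw [Finset.mul_sum, Finset.mul_sum, Finset.sum_div]
    refine Finset.sum_congr rfl fun m _ => ?_
    ring
  rw [e4]
  have h5 : 3 * (E * (∑ m ∈ Finset.range (N + 1), ((f ^ m) b - (f ^ m) a))) / (b - a) ≤
      3 * (E * (2 * p)) / (b - a) := by
    gcongr
  have h6 : ENNReal.ofReal (3 * (E * (2 * p)) / (b - a)) =
      ENNReal.ofReal (3 * (E * (2 * p))) / volume (Icc a b) := by
    rw [Real.volume_Icc, ENNReal.ofReal_div_of_pos hba]
  calc _ ≤ ENNReal.ofReal (3 * (E * (2 * p)) / (b - a)) * volume (S ∩ Icc a b) := by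
        gcongr
    _ = _ := by
        rw [h6, ENNReal.div_eq_inv_mul, ENNReal.div_eq_inv_mul]
        ring

/-- Katok-Herman -/
theorem KHD.ergodic (h : KHD f p L) {A : Set ℝ} (hA : MeasurableSet A)
    (hAf : ∀ x, f x ∈ A ↔ x ∈ A) (hAT : ∀ x, x + p ∈ A ↔ x ∈ A) :
    volume A = 0 ∨ volume Aᶜ = 0 := by
  by_cases hA0 : volume A = 0
  · exact Or.inl hA0
  right
  have hp := h.pos
  have hne : (ae (volume.restrict A)).NeBot := by
    rw [ae_neBot]
    intro h0
    exact hA0 (Measure.restrict_eq_zero.1 h0)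
  obtain ⟨x, hx⟩ := (IsUnifLocDoublingMeasure.ae_tendsto_measure_inter_div
    (volume : Measure ℝ) A 1).exists
  -- the sequence of jumps
  have hex : ∀ k : ℕ, ∃ N, k + 1 ≤ N ∧ bb h.toNP (N + 1) ≠ bb h.toNP N ∧
      0 < (bb h.toNP N).1 := by
    intro k
    obtain ⟨N, h1, h2, h3⟩ := jump_pos h.toNP (k + 1)
    exact ⟨N, h1, h2, by omega⟩
  choose φ hφ1 hφ2 hφ3 using hex
  set a : ℕ → ℝ := fun k => ac f p (-(bb h.toNP (φ k))) x with ha
  set b : ℕ → ℝ := fun k => ac f p (bb h.toNP (φ k)) x with hb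
  have hax : ∀ k, a k < x := fun k => h.toNP.neg_lt (bb_spec h.toNP (φ k)).2.1 x
  have hxb : ∀ k, x < b k := fun k => (bb_spec h.toNP (φ k)).2.1 x
  have hδlim : Tendsto (fun k => (b k - a k) / 2) atTop (𝓝[>] 0) := by
    rw [tendsto_nhdsWithin_iff]
    refine ⟨?_, Eventually.of_forall fun k => ?_⟩
    · rw [Metric.tendsto_atTop]
      intro ε hε
      obtain ⟨N1, hN1⟩ := h.denjoy x hε
      obtain ⟨N2, hN2⟩ := h.denjoy' x hε
      refine ⟨max N1 N2, fun k hk => ?_⟩
      have h1 := hN1 (φ k) (by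
        have := hφ1 k
        have := le_max_left N1 N2
        omega)
      have h2 := hN2 (φ k) (by
        have := hφ1 k
        have := le_max_right N1 N2
        omega)
      have h3 := hax k
      have h4 := hxb k
      rw [Real.dist_eq, sub_zero, abs_of_pos (by linarith)]
      change b k < x + ε at h1
      change x - ε < a k at h2
      linarith
    · have h3 := hax k
      have h4 := hxb k
      show 0 < (b k - a k) / 2
      linarith
  have hball : ∀ k, Icc (a k) (b k) = closedBall ((a k + b k) / 2) ((b k - a k) / 2) := fun k =>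
    Real.Icc_eq_closedBall _ _
  have hdens := hx (l := atTop) (fun k => (a k + b k) / 2) (fun k => (b k - a k) / 2) hδlim
    (Eventually.of_forall fun k => by
      rw [one_mul, ← hball k]
      exact ⟨(hax k).le, (hxb k).le⟩)
  have hratio : ∀ k, volume (Aᶜ ∩ Icc (a k) (b k)) / volume (Icc (a k) (b k)) =
      1 - volume (A ∩ Icc (a k) (b k)) / volume (Icc (a k) (b k)) := by
    intro k
    have hpos : 0 < b k - a k := by
      have h3 := hax k
      have h4 := hxb k
      linarith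
    have hv0 : volume (Icc (a k) (b k)) ≠ 0 := by
      rw [Real.volume_Icc]
      simpa using hpos
    have hvt : volume (Icc (a k) (b k)) ≠ ⊤ := by
      rw [Real.volume_Icc]
      exact ENNReal.ofReal_ne_top
    have hsum : volume (Aᶜ ∩ Icc (a k) (b k)) + volume (A ∩ Icc (a k) (b k)) =
        volume (Icc (a k) (b k)) := by
      rw [inter_comm Aᶜ, inter_comm A, add_comm, ← sdiff_eq]
      exact measure_inter_add_sdiff _ hA
    refine ENNReal.eq_sub_of_add_eq ?_ ?_
    · refine (ENNReal.div_lt_top ?_ hv0).ne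
      exact ((measure_mono inter_subset_right).trans_lt (lt_top_iff_ne_top.2 hvt)).ne
    · rw [← ENNReal.add_div, hsum, ENNReal.div_self hv0 hvt]
  have hlim0 : Tendsto (fun k => volume (Aᶜ ∩ Icc (a k) (b k)) / volume (Icc (a k) (b k)))
      atTop (𝓝 0) := by
    have h1 : Tendsto (fun k => volume (A ∩ Icc (a k) (b k)) / volume (Icc (a k) (b k)))
        atTop (𝓝 1) := by
      refine hdens.congr fun k => ?_
      rw [hball k]
    have h2 := ENNReal.Tendsto.sub (tendsto_const_nhds (x := (1 : ENNReal))) h1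
      (Or.inl ENNReal.one_ne_top)
    rw [tsub_self] at h2
    exact h2.congr fun k => (hratio k).symm
  have hAf' : ∀ x, f x ∈ Aᶜ ↔ x ∈ Aᶜ := fun x => not_congr (hAf x)
  have hAT' : ∀ x, x + p ∈ Aᶜ ↔ x ∈ Aᶜ := fun x => not_congr (hAT x)
  have hzero : volume (Aᶜ ∩ Ico x (x + p)) = 0 := by
    have hle : ∀ k, volume (Aᶜ ∩ Ico x (x + p)) ≤
        ENNReal.ofReal (3 * (Real.exp (2 * L * p) * (2 * p))) *
        (volume (Aᶜ ∩ Icc (a k) (b k)) / volume (Icc (a k) (b k))) := fun k =>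
      h.est (by have := hφ1 k; omega) (hφ2 k) (hφ3 k) x hA.compl hAf' hAT'
    have hlim1 := ENNReal.Tendsto.const_mul (a := ENNReal.ofReal
      (3 * (Real.exp (2 * L * p) * (2 * p)))) hlim0 (Or.inr ENNReal.ofReal_ne_top)
    rw [mul_zero] at hlim1
    exact nonpos_iff_eq_zero.1 (ge_of_tendsto' hlim1 hle)
  have hcov : Aᶜ ⊆ ⋃ k : ℤ, (fun y : ℝ => y + k * p) ⁻¹' (Aᶜ ∩ Ico x (x + p)) := by
    intro z hz
    rw [mem_iUnion]
    refine ⟨-⌊(z - x) / p⌋, ?_, ?_, ?_⟩
    · exact (inv_add hAT' _ z).2 hz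
    · have := Int.floor_le ((z - x) / p)
      rw [le_div_iff₀ hp] at this
      show x ≤ z + ((-⌊(z - x) / p⌋ : ℤ) : ℝ) * p
      push_cast
      linarith
    · have := Int.lt_floor_add_one ((z - x) / p)
      rw [div_lt_iff₀ hp] at this
      show z + ((-⌊(z - x) / p⌋ : ℤ) : ℝ) * p < x + p
      push_cast
      linarith
  refine measure_mono_null hcov (measure_iUnion_null fun k => ?_)
  rw [measure_preimage_add_right]
  exact hzero

/-- **Katok-Herman**: a `C²` circle diffeomorphism without periodic points is ergodic with respect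
to Lebesgue measure. -/
theorem katok_herman (f : ℝ ≃o ℝ) (hper : ∀ x, f (x + 2 * Real.pi) = f x + 2 * Real.pi)
    (hC2 : ContDiff ℝ 2 (f : ℝ → ℝ)) (hd : ∀ x, 0 < deriv (f : ℝ → ℝ) x)
    (hnp : ∀ q : ℕ, 0 < q → ∀ (k : ℤ) (z : ℝ), (f ^ q) z ≠ z + k * (2 * Real.pi))
    (A : Set ℝ) (hA : MeasurableSet A) (hAf : ∀ x, f x ∈ A ↔ x ∈ A)
    (hAT : ∀ x, x + 2 * Real.pi ∈ A ↔ x ∈ A) : volume A = 0 ∨ volume Aᶜ = 0 := by
  have hpi : 0 < 2 * Real.pi := by positivity
  have hdiff : Differentiable ℝ (f : ℝ → ℝ) := hC2.differentiable (by norm_num)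
  have hd1 : ContDiff ℝ 1 (deriv (f : ℝ → ℝ)) := by
    have : ContDiff ℝ (1 + 1) (f : ℝ → ℝ) := by
      convert hC2 using 1
      norm_num
    exact (contDiff_succ_iff_deriv.1 this).2.2
  have hdper : ∀ x, deriv (f : ℝ → ℝ) (x + 2 * Real.pi) = deriv (f : ℝ → ℝ) x := by
    intro x
    have h1 : (fun y => f (y + 2 * Real.pi)) = fun y => f y + 2 * Real.pi := funext hper
    have h2 := deriv_comp_add_const (f : ℝ → ℝ) (2 * Real.pi) x
    rw [h1, deriv_add_const] at h2
    exact h2.symm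
  set g : ℝ → ℝ := fun x => Real.log (deriv (f : ℝ → ℝ) x) with hg
  have hg1 : ContDiff ℝ 1 g := hd1.log fun x => (hd x).ne'
  have hgd : Continuous (deriv g) := hg1.continuous_deriv le_rfl
  have hgper : Function.Periodic (deriv g) (2 * Real.pi) := by
    intro x
    have h1 : (fun y => g (y + 2 * Real.pi)) = g := by
      funext y
      simp only [hg]
      rw [hdper]
    have h2 := deriv_comp_add_const g (2 * Real.pi) x
    rw [h1] at h2
    exact h2.symm
  obtain ⟨L, hL⟩ := (hgper.isBounded_of_continuous hpi.ne' hgd).exists_norm_le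
  have hLx : ∀ x, ‖deriv g x‖ ≤ L := fun x => hL _ (mem_range_self x)
  have hlip : ∀ x y, |g x - g y| ≤ (|L| + 1) * |x - y| := by
    intro x y
    have h1 := Convex.norm_image_sub_le_of_norm_deriv_le (f := g) (C := |L| + 1) (s := univ)
      (x := y) (y := x) (fun z _ => (hg1.differentiable (by norm_num)) z)
      (fun z _ => (hLx z).trans ((le_abs_self L).trans (by linarith))) convex_univ
      (mem_univ _) (mem_univ _)
    simpa [Real.norm_eq_abs] using h1
  have hK : KHD f (2 * Real.pi) (|L| + 1) :=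
    { pos := hpi
      per := hper
      np := hnp
      Lpos := by positivity
      diff := fun x => hdiff x
      dpos := hd
      lip := hlip }
  exact hK.ergodic hA hAf hAT

end Pool.Agent.H25.KH
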